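import Pool.Agent.Helper44.GF.Defs

/-!
# Module FINP: the finite model has the property `PP`
-/

open Finset MeasureTheory Filter Topology

namespace Pool.Agent.Helper44.GF

/-- An injective matrix has a nonzero maximal minor. -/
theorem finp_minor {n m : ℕ} (V : Matrix (Fin n) (Fin m) ℝ)
    (hV : Function.Injective V.mulVec) :
    ∃ g : Fin m ↪ Fin n, (V.submatrix g id).det ≠ 0 := by
  have hr : V.rank = m := by
    have h1 : LinearIndependent ℝ V.col := Matrix.mulVec_injective_iff.mp hV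
    rw [Matrix.rank_eq_finrank_span_cols]
    have := finrank_span_eq_card h1
    simpa using this
  rw [Matrix.rank_eq_finrank_span_row] at hr
  obtain ⟨f, hf1, _, hf3⟩ := Submodule.exists_fun_fin_finrank_span_eq ℝ (Set.range V.row)
  choose g hg using hf1
  have hgi : Function.Injective g := by
    intro a b hab
    apply hf3.injective
    rw [← hg a, ← hg b, hab]
  have hli : LinearIndependent ℝ (fun i : Fin m => f (Fin.cast hr.symm i)) :=
    hf3.comp _ (Fin.cast_injective _)
  refine ⟨⟨fun i => g (Fin.cast hr.symm i), fun a b hab => Fin.cast_injective _ (hgi hab)⟩, ?_⟩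
  have hrow : (V.submatrix (fun i => g (Fin.cast hr.symm i)) id).row
      = fun i : Fin m => f (Fin.cast hr.symm i) := by
    funext i
    rw [← hg (Fin.cast hr.symm i)]
    rfl
  have hu : IsUnit (V.submatrix (fun i => g (Fin.cast hr.symm i)) id) := by
    rw [← Matrix.linearIndependent_rows_iff_isUnit, hrow]
    exact hli
  exact ((Matrix.isUnit_iff_isUnit_det _).mp hu).ne_zero

theorem finp_tau {n : ℕ} {Y : Type} [Fintype Y] [DecidableEq Y] (r : Y → ℝ) (d : ℝ)
    (hr : ∀ y, 0 < r y) (η : Finset (Fin n × Y)) (i : Fin n) : d ≤ tau d r η i := by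
  unfold tau
  have : 0 ≤ ∑ y, if (i, y) ∈ η then r y else 0 :=
    Finset.sum_nonneg fun y _ => by split_ifs; exacts [(hr y).le, le_rfl]
  linarith

theorem finp_pol_nonneg {n : ℕ} {ι : Type} [Fintype ι] (S : ι → Finset (Fin n)) (w : ι → ℝ)
    (τ : Fin n → ℝ) (hτ : ∀ i, 0 < τ i) : 0 ≤ pol S (fun I => w I ^ 2) τ := by
  unfold pol
  exact Finset.sum_nonneg fun I _ =>
    mul_nonneg (sq_nonneg _) (Finset.prod_nonneg fun i _ => (hτ i).le)

theorem finp_pol_pos {n : ℕ} {ι : Type} [Fintype ι] (S : ι → Finset (Fin n)) (w : ι → ℝ)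
    (τ : Fin n → ℝ) (hτ : ∀ i, 0 < τ i) (I : ι) (hI : w I ≠ 0) :
    0 < pol S (fun I => w I ^ 2) τ := by
  unfold pol
  refine Finset.sum_pos' (fun I _ =>
    mul_nonneg (sq_nonneg _) (Finset.prod_nonneg fun i _ => (hτ i).le)) ⟨I, mem_univ _, ?_⟩
  exact mul_pos (by positivity) (Finset.prod_pos fun i _ => hτ i)

theorem finp_Fq_nonneg {n : ℕ} {Y ι : Type} [Fintype Y] [DecidableEq Y] [Fintype ι]
    (S : ι → Finset (Fin n)) (r z : Y → ℝ) (d : ℝ) (hr : ∀ y, 0 < r y) (hz : ∀ y, 0 < z y)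
    (hd : 0 < d) (w : ι → ℝ) : 0 ≤ Fq S r z d w := by
  unfold Fq
  refine Finset.sum_nonneg fun η _ => mul_nonneg (Finset.prod_nonneg fun x _ => (hz _).le)
    (Real.rpow_nonneg (finp_pol_nonneg S w _ fun i => ?_) _)
  exact lt_of_lt_of_le hd (finp_tau r d hr η i)

theorem finp_Fq_pos {n : ℕ} {Y ι : Type} [Fintype Y] [DecidableEq Y] [Fintype ι]
    (S : ι → Finset (Fin n)) (r z : Y → ℝ) (d : ℝ) (hr : ∀ y, 0 < r y) (hz : ∀ y, 0 < z y)
    (hd : 0 < d) (w : ι → ℝ) (I : ι) (hI : w I ≠ 0) : 0 < Fq S r z d w := by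
  unfold Fq
  refine Finset.sum_pos (fun η _ => mul_pos (Finset.prod_pos fun x _ => hz _)
    (Real.rpow_pos_of_pos (finp_pol_pos S w _ (fun i => ?_) I hI) _)) univ_nonempty
  exact lt_of_lt_of_le hd (finp_tau r d hr η i)

theorem finp_Fq_smul {n : ℕ} {Y ι : Type} [Fintype Y] [DecidableEq Y] [Fintype ι]
    (S : ι → Finset (Fin n)) (r z : Y → ℝ) (d : ℝ) (hr : ∀ y, 0 < r y)
    (hd : 0 < d) (t : ℝ) (w : ι → ℝ) :
    (Fq S r z d (t • w))⁻¹ = |t| * (Fq S r z d w)⁻¹ := by
  have hpol : ∀ τ : Fin n → ℝ, pol S (fun I => (t • w) I ^ 2) τ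
      = t ^ 2 * pol S (fun I => w I ^ 2) τ := by
    intro τ
    unfold pol
    rw [Finset.mul_sum]
    refine Finset.sum_congr rfl fun I _ => ?_
    simp only [Pi.smul_apply, smul_eq_mul]
    ring
  rcases eq_or_ne t 0 with rfl | ht
  · have : Fq S r z d ((0 : ℝ) • w) = 0 := by
      unfold Fq
      refine Finset.sum_eq_zero fun η _ => ?_
      rw [hpol, zero_pow two_ne_zero, zero_mul, Real.zero_rpow (by norm_num), mul_zero]
    rw [this]; simp
  · have : Fq S r z d (t • w) = |t|⁻¹ * Fq S r z d w := by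
      unfold Fq
      rw [Finset.mul_sum]
      refine Finset.sum_congr rfl fun η _ => ?_
      have hn : 0 ≤ pol S (fun I => w I ^ 2) (tau d r η) :=
        finp_pol_nonneg S w _ fun i => lt_of_lt_of_le hd (finp_tau r d hr η i)
      rw [hpol, Real.mul_rpow (sq_nonneg t) hn]
      have : (t ^ 2) ^ (-(1 / 2) : ℝ) = |t|⁻¹ := by
        rw [← sq_abs, Real.rpow_neg (by positivity), ← Real.sqrt_eq_rpow,
          Real.sqrt_sq (abs_nonneg t)]
      rw [this]; ring
    rw [this, mul_inv, inv_inv]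

theorem st_FINP (hBALL : ST_BALL) (hHB : ST_HB) (hLINK : ST_LINK) : ST_FINP := by
  intro n m Y _ _ r z d s hm hr hz hz1 hd hs hsm h1 V hV
  have hmn : m ≤ n := by
    have h := LinearMap.finrank_le_finrank_of_injective
      (f := V.mulVecLin) (by simpa [Matrix.coe_mulVecLin] using hV)
    simpa using h
  set S : (Fin m ↪ Fin n) → Finset (Fin n) := fun f => univ.map f with hS
  have hMH : MH0 m S r z d s := by
    refine ⟨hm, fun I => by simp [hS], ?_, hr, hz, hz1, hd, hs, hsm, h1⟩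
    intro i
    refine ⟨(Fin.castLEEmb hmn).trans
      (Equiv.swap (Fin.castLEEmb hmn ⟨0, hm⟩) i).toEmbedding, ?_⟩
    simp only [hS, Finset.mem_map, Finset.mem_univ, true_and]
    exact ⟨⟨0, hm⟩, by simp⟩
  obtain ⟨C, hC, hlink⟩ := hLINK n m Y r z d hr hz hd
  set v : (Fin m ↪ Fin n) → ℝ := fun f => (V.submatrix f id).det with hv
  have hF0 : ∀ w, 0 ≤ Fq S r z d w := finp_Fq_nonneg S r z d hr hz hd
  obtain ⟨g, hg⟩ := finp_minor V hV
  have hFv : 0 < Fq S r z d v := finp_Fq_pos S r z d hr hz hd v g hg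
  obtain ⟨c, hc0, hc1, hc2, hc3⟩ := hHB (Fin m ↪ Fin n) (fun w => (Fq S r z d w)⁻¹)
    (fun w => inv_nonneg.mpr (hF0 w)) (fun w w' => hBALL n m Y _ S r z d s hMH w w')
    (fun t w => finp_Fq_smul S r z d hr hd t w)
    (fun w w' hww => by
      have : Fq S r z d w = Fq S r z d w' := by
        unfold Fq
        have h2 : (fun I => w I ^ 2) = fun I => w' I ^ 2 := by
          funext I; rw [← sq_abs, hww I, sq_abs]
        rw [h2]
      simp only [this]) v (inv_pos.mpr hFv)
  classical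
  set c' : (Fin m → Fin n) → ℝ := fun f => if h : Function.Injective f then c ⟨f, h⟩ else 0
    with hc'
  have hsum : ∀ G : (Fin m → Fin n) → ℝ, ∑ f, c' f * G f = ∑ e : Fin m ↪ Fin n, c e * G e := by
    intro G
    symm
    refine Fintype.sum_of_injective (fun e : Fin m ↪ Fin n => (e : Fin m → Fin n))
      DFunLike.coe_injective _ _ ?_ ?_
    · intro f hf
      have : ¬ Function.Injective f := fun h => hf ⟨⟨f, h⟩, rfl⟩
      simp [hc', this]
    · intro e
      simp [hc', e.injective]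
  refine ⟨c', ?_, ?_, ?_, ?_⟩
  · intro f
    simp only [hc']
    split_ifs
    exacts [hc0 _, le_rfl]
  · have := hsum fun _ => 1
    simpa [hc1] using this
  · intro f hf
    simp only [hc']
    split_ifs with h
    · exact hc2 _ hf
    · rfl
  · intro W hW
    obtain ⟨g', hg'⟩ := finp_minor W hW
    set w : (Fin m ↪ Fin n) → ℝ := fun f => (W.submatrix f id).det with hw
    have hFw : 0 < Fq S r z d w := finp_Fq_pos S r z d hr hz hd w g' hg'
    have h3 := hc3 w
    rw [hsum, hlink V hV, hlink W hW]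
    change (∑ e : Fin m ↪ Fin n, c e * |w e / v e|) * (C * Fq S r z d w) ≤ C * Fq S r z d v
    set T := ∑ e : Fin m ↪ Fin n, c e * |w e / v e|
    have h4 : T * Fq S r z d w ≤ Fq S r z d v := by
      have h5 : T * (Fq S r z d v)⁻¹ * (Fq S r z d v * Fq S r z d w)
          ≤ (Fq S r z d w)⁻¹ * (Fq S r z d v * Fq S r z d w) :=
        mul_le_mul_of_nonneg_right h3 (by positivity)
      have e1 : T * (Fq S r z d v)⁻¹ * (Fq S r z d v * Fq S r z d w) = T * Fq S r z d w := by
        field_simp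
      have e2 : (Fq S r z d w)⁻¹ * (Fq S r z d v * Fq S r z d w) = Fq S r z d v := by
        field_simp
      rwa [e1, e2] at h5
    calc T * (C * Fq S r z d w) = C * (T * Fq S r z d w) := by ring
      _ ≤ C * Fq S r z d v := mul_le_mul_of_nonneg_left h4 hC.le

end Pool.Agent.Helper44.GF
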